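import Pool.Agent.TH107.Root

set_option autoImplicit false

/-!
# MP_70010f_co: the dimension of the poset of convex subcomplexes of a finite Coxeter complex

For every finite Coxeter system `(W, S)` with Coxeter complex `Σ`, the poset `Y(Σ)` of nonempty
convex subcomplexes of `Σ` has dimension `dim Σ + N(Σ)`, where `dim Σ = |S| - 1` and `N(Σ)` is the
number of reflections of `W`.
-/

namespace Pool.Agent.Results.MP_70010f_co.ConvexDim

universe u v

section defs

variable {B : Type u} {M : CoxeterMatrix B} {W : Type v} [Group W] (cs : CoxeterSystem M W)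

/-- The standard coset `w W_T`, where `W_T` is generated by the simple reflections in `T`. -/
def coset (w : W) (T : Set B) : Set W := {x | w⁻¹ * x ∈ Subgroup.closure (cs.simple '' T)}

/-- The (nonempty) simplices of the Coxeter complex: the standard cosets `w W_T` with `T ≠ S`.
A simplex `A` is a face of a simplex `A'` when `A' ⊆ A`; the chambers are the singletons. -/
def IsSimplex (A : Set W) : Prop := ∃ (w : W) (T : Set B), T ≠ Set.univ ∧ A = coset cs w T

/-- The closed half into which the wall of the reflection `t` cuts the Coxeter complex, on the side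
of the fundamental chamber: all faces of the chambers `w` with `ℓ(w) < ℓ(t w)`. -/
def posHalf (t : W) : Set (Set W) :=
  {A | IsSimplex cs A ∧ ∃ w ∈ A, cs.length w < cs.length (t * w)}

/-- The opposite closed half: all faces of the chambers `w` with `ℓ(t w) < ℓ(w)`. -/
def negHalf (t : W) : Set (Set W) :=
  {A | IsSimplex cs A ∧ ∃ w ∈ A, cs.length (t * w) < cs.length w}

/-- The roots of the Coxeter complex. -/
def IsRoot (R : Set (Set W)) : Prop :=
  ∃ t, cs.IsReflection t ∧ (R = posHalf cs t ∨ R = negHalf cs t)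

/-- The convex subcomplexes: the intersections of roots (the empty intersection is the whole
Coxeter complex). -/
def IsConvex (C : Set (Set W)) : Prop :=
  ∃ 𝓡 : Set (Set (Set W)), (∀ R ∈ 𝓡, IsRoot cs R) ∧ C = {A | IsSimplex cs A ∧ ∀ R ∈ 𝓡, A ∈ R}

/-- The poset of nonempty convex subcomplexes, ordered by inclusion. -/
abbrev Y : Type v := {C : Set (Set W) // IsConvex cs C ∧ C.Nonempty}

end defs

open Pool.Agent.Helper741 Pool.Agent.TH107 CoxeterSystem

variable {B : Type u} {M : CoxeterMatrix B} [Fintype B] [DecidableEq B]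
variable {W : Type v} [Group W] {cs : CoxeterSystem M W}

/-- parabolic subgroup -/
abbrev para (cs : CoxeterSystem M W) (T : Set B) : Subgroup W := Subgroup.closure (cs.simple '' T)

lemma mem_coset (w x : W) (T : Set B) : x ∈ coset cs w T ↔ w⁻¹ * x ∈ para cs T := Iff.rfl

lemma self_mem (w : W) (T : Set B) : w ∈ coset cs w T := by
  rw [mem_coset, inv_mul_cancel]; exact one_mem _

/-- elements of a parabolic subgroup do not change the coordinates outside -/
lemma geo_coord {T : Set B} {x : W} (hx : x ∈ para cs T) : ∀ (y : B → ℝ) (j : B), j ∉ T →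
    geo cs x y j = y j := by
  induction hx using Subgroup.closure_induction with
  | mem x hx =>
    obtain ⟨i, hi, rfl⟩ := hx
    intro y j hj
    have hij : j ≠ i := fun h => hj (h ▸ hi)
    rw [geo_simple, sg_apply]
    simp [ee, Pi.single_apply, hij]
  | one => intro y j _; simp
  | mul x y _ _ hx hy =>
    intro v j hj
    rw [← geo_geo, hx _ j hj, hy _ j hj]
  | inv x _ hx =>
    intro v j hj
    have := hx (geo cs x⁻¹ v) j hj
    rw [geo_geo, mul_inv_cancel, map_one] at this
    simpa using this.symm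

lemma ee_coord (i : B) : (ee i : B → ℝ) i = 1 := by simp [ee]

/-- a root supported in `T` belongs to a reflection in `W_T` -/
lemma mem_para [Finite W] {T : Set B} {r : W} (hr : cs.IsReflection r)
    (hs : ∀ j, j ∉ T → rt cs r j = 0) : r ∈ para cs T := by
  by_contra hcon
  have hfin : {r : W | cs.IsReflection r ∧ (∀ j, j ∉ T → rt cs r j = 0) ∧ r ∉ para cs T}.Finite :=
    Set.toFinite _
  obtain ⟨r₀, ⟨h1, h2, h3⟩, hmin⟩ := Set.exists_min_image _ (fun r => ∑ i, rt cs r i) hfin
    ⟨r, hr, hs, hcon⟩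
  have hb := bil_rt_self h1
  obtain ⟨i, -, hi⟩ : ∃ i ∈ (Finset.univ : Finset B), 0 < rt cs r₀ i * coroot M i (rt cs r₀) := by
    apply Finset.exists_lt_of_sum_lt
    have : bil M (rt cs r₀) (rt cs r₀) = ∑ i, rt cs r₀ i * coroot M i (rt cs r₀) := rfl
    rw [← this, hb]; simp
  have hpos := rt_pos h1 i
  simp only [Pi.zero_apply] at hpos
  have hi1 : 0 < rt cs r₀ i := by
    rcases hpos.lt_or_eq with h | h
    · exact h
    · rw [← h, zero_mul] at hi; exact absurd hi (lt_irrefl _)
  have hi2 : 0 < coroot M i (rt cs r₀) := by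
    by_contra h
    push Not at h
    have := mul_nonpos_of_nonneg_of_nonpos hpos h
    linarith
  have hiT : i ∈ T := by
    by_contra h
    rw [h2 i h] at hi1
    exact lt_irrefl _ hi1
  have hsi : cs.simple i ∈ para cs T := Subgroup.subset_closure ⟨i, hiT, rfl⟩
  have hg : geo cs (cs.simple i) (rt cs r₀) = rt cs r₀ - coroot M i (rt cs r₀) • ee i := by
    rw [geo_simple, sg_apply]
  rcases ((rt_isRt h1).geo (cs.simple i)).cases with h | h
  · have h4 := rt_conj_pos h1 (cs.simple i) h
    have h5 : cs.simple i * r₀ * (cs.simple i)⁻¹ ∉ para cs T := by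
      intro h6
      apply h3
      have := mul_mem (mul_mem hsi h6) hsi
      simpa [mul_assoc] using this
    have h6 := hmin (cs.simple i * r₀ * (cs.simple i)⁻¹) ⟨h1.conj _, fun j hj => by
      rw [h4, geo_coord hsi _ j hj]; exact h2 j hj, h5⟩
    rw [h4, hg] at h6
    simp only [Pi.sub_apply, Pi.smul_apply, smul_eq_mul, Finset.sum_sub_distrib] at h6
    rw [← Finset.mul_sum] at h6
    have h7 : ∑ j, (ee i : B → ℝ) j = 1 := by simp [ee]
    rw [h7] at h6
    linarith
  · have h4 := (rt_PR h1).eq_ee h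
    rw [← rt_simple (cs := cs) i] at h4
    have := rt_inj h1 (cs.isReflection_simple i) h4
    exact h3 (this ▸ hsi)

lemma left_length {t : W} (ht : cs.IsReflection t) (w : W) :
    cs.length w < cs.length (t * w) ↔ 0 ≤ geo cs w⁻¹ (rt cs t) := by
  rw [← length_lt_iff ht, ← cs.length_inv w, ← cs.length_inv (t * w), mul_inv_rev, ht.inv]

lemma left_length' {t : W} (ht : cs.IsReflection t) (w : W) :
    cs.length (t * w) < cs.length w ↔ geo cs w⁻¹ (rt cs t) ≤ 0 := by
  rw [← length_gt_iff ht, ← cs.length_inv w, ← cs.length_inv (t * w), mul_inv_rev, ht.inv]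

/-- a simplex is on both sides of the wall of `t` iff its root is in the span -/
lemma both_iff [Finite W] {t : W} (ht : cs.IsReflection t) {w : W} {T : Set B} (hT : T ≠ Set.univ) :
    (coset cs w T ∈ posHalf cs t ∧ coset cs w T ∈ negHalf cs t) ↔
      ∀ j, j ∉ T → geo cs w⁻¹ (rt cs t) j = 0 := by
  have hsim : IsSimplex cs (coset cs w T) := ⟨w, T, hT, rfl⟩
  constructor
  · rintro ⟨⟨_, x, hx, hx'⟩, _, y, hy, hy'⟩ j hj
    rw [left_length ht] at hx'
    rw [left_length' ht] at hy'
    have e : ∀ x, x ∈ coset cs w T → geo cs x⁻¹ (rt cs t) j = geo cs w⁻¹ (rt cs t) j := by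
      intro x hx
      have h1 : x⁻¹ = (w⁻¹ * x)⁻¹ * w⁻¹ := by group
      rw [h1, ← geo_geo, geo_coord (inv_mem hx) _ j hj]
    have h1 := hx' j
    have h2 := hy' j
    rw [e x hx] at h1
    rw [e y hy] at h2
    exact le_antisymm h2 h1
  · intro h
    have hr : cs.IsReflection (w⁻¹ * t * w⁻¹⁻¹) := ht.conj w⁻¹
    have hmem : w⁻¹ * t * w⁻¹⁻¹ ∈ para cs T := by
      apply mem_para hr
      intro j hj
      rcases ((rt_isRt ht).geo w⁻¹).cases with h1 | h1
      · rw [rt_conj_pos ht _ h1]; exact h j hj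
      · rw [rt_conj_neg ht _ h1]; simp [h j hj]
    rw [inv_inv] at hmem
    have hx : t * w ∈ coset cs w T := by
      rw [mem_coset, ← mul_assoc]; exact hmem
    have h2 : t * (t * w) = w := by rw [← mul_assoc, ht.mul_self, one_mul]
    rcases lt_or_gt_of_ne (ht.length_mul_right_ne w) with h1 | h1
    · exact ⟨⟨hsim, t * w, hx, by rw [h2]; exact h1⟩, hsim, w, self_mem w T, h1⟩
    · exact ⟨⟨hsim, w, self_mem w T, h1⟩, hsim, t * w, hx, by rw [h2]; exact h1⟩

/-! ### Upper bound -/

/-- the span of the roots of the walls containing `C` -/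
noncomputable def wspan (cs : CoxeterSystem M W) (C : Set (Set W)) : Submodule ℝ (B → ℝ) :=
  Submodule.span ℝ (rt cs '' {t | cs.IsReflection t ∧ C ⊆ posHalf cs t ∧ C ⊆ negHalf cs t})

/-- the reflections whose walls cross `C` -/
def crossing (cs : CoxeterSystem M W) (C : Set (Set W)) : Set W :=
  {t | cs.IsReflection t ∧ ¬ C ⊆ posHalf cs t ∧ ¬ C ⊆ negHalf cs t}

lemma wspan_anti {C C' : Set (Set W)} (h : C' ⊆ C) : wspan cs C ≤ wspan cs C' := by
  apply Submodule.span_mono
  apply Set.image_mono
  rintro t ⟨h1, h2, h3⟩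
  exact ⟨h1, h.trans h2, h.trans h3⟩

lemma crossing_mono {C C' : Set (Set W)} (h : C' ⊆ C) : crossing cs C' ⊆ crossing cs C := by
  rintro t ⟨h1, h2, h3⟩
  exact ⟨h1, fun h4 => h2 (h.trans h4), fun h4 => h3 (h.trans h4)⟩

/-- if `A ∈ C` then the span of `C` lies in the coordinate subspace of `A` -/
lemma wspan_coord [Finite W] {C : Set (Set W)} {w : W} {T : Set B} (hT : T ≠ Set.univ)
    (hA : coset cs w T ∈ C) {x : B → ℝ} (hx : x ∈ wspan cs C) :
    ∀ j, j ∉ T → geo cs w⁻¹ x j = 0 := by
  intro j hj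
  unfold wspan at hx
  induction hx using Submodule.span_induction with
  | mem x hx =>
    obtain ⟨t, ⟨h1, h2, h3⟩, rfl⟩ := hx
    exact (both_iff h1 hT).1 ⟨h2 hA, h3 hA⟩ j hj
  | zero => simp
  | add x y _ _ hx hy => rw [map_add, Pi.add_apply, hx, hy, add_zero]
  | smul a x _ hx => rw [map_smul, Pi.smul_apply, hx, smul_zero]

/-- the strictly monotone function -/
noncomputable def F (cs : CoxeterSystem M W) (C : Set (Set W)) : ℕ :=
  (Fintype.card B - Module.finrank ℝ (wspan cs C)) + (crossing cs C).ncard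

lemma finrank_le (C : Set (Set W)) : Module.finrank ℝ (wspan cs C) ≤ Fintype.card B := by
  have := Submodule.finrank_le (wspan cs C)
  rwa [Module.finrank_fintype_fun_eq_card] at this

lemma F_lt [Finite W] {C C' : Set (Set W)} (hC : IsConvex cs C) (hC' : IsConvex cs C')
    (h : C' ⊂ C) : F cs C' < F cs C := by
  have hsub := h.1
  have h1 : Module.finrank ℝ (wspan cs C) ≤ Module.finrank ℝ (wspan cs C') :=
    Submodule.finrank_mono (wspan_anti hsub)
  have h2 : (crossing cs C').ncard ≤ (crossing cs C).ncard :=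
    Set.ncard_le_ncard (crossing_mono hsub) (Set.toFinite _)
  have h3 := finrank_le (cs := cs) C
  have h4 := finrank_le (cs := cs) C'
  obtain ⟨A, hAC, hAC'⟩ := Set.exists_of_ssubset h
  obtain ⟨𝓡', hR', rfl⟩ := hC'
  obtain ⟨𝓡, hR, rfl⟩ := hC
  obtain ⟨R, hRm, hAR⟩ : ∃ R ∈ 𝓡', A ∉ R := by
    by_contra hcon
    push Not at hcon
    exact hAC' ⟨hAC.1, hcon⟩
  set C : Set (Set W) := {A | IsSimplex cs A ∧ ∀ R ∈ 𝓡, A ∈ R} with hCdef
  set C' : Set (Set W) := {A | IsSimplex cs A ∧ ∀ R ∈ 𝓡', A ∈ R} with hCdef'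
  have hC'R : C' ⊆ R := fun A hA => hA.2 R hRm
  obtain ⟨w, T, hT, hA⟩ := hAC.1
  have key : ∀ t, cs.IsReflection t → ∀ R R', (R = posHalf cs t ∧ R' = negHalf cs t) ∨
      (R = negHalf cs t ∧ R' = posHalf cs t) → C' ⊆ R → A ∉ R → F cs C' < F cs C := by
    intro t ht R R' hRR hCR hAR
    by_cases hcr : C ⊆ R'
    · -- `C` lies on the other side
      have h5 : t ∈ {t | cs.IsReflection t ∧ C' ⊆ posHalf cs t ∧ C' ⊆ negHalf cs t} := by
        rcases hRR with ⟨rfl, rfl⟩ | ⟨rfl, rfl⟩
        · exact ⟨ht, hCR, hsub.trans hcr⟩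
        · exact ⟨ht, hsub.trans hcr, hCR⟩
      have h6 : rt cs t ∈ wspan cs C' := Submodule.subset_span ⟨t, h5, rfl⟩
      have h7 : rt cs t ∉ wspan cs C := by
        intro h8
        have h9 := (both_iff ht hT).2 (wspan_coord (cs := cs) hT (hA ▸ hAC) h8)
        rw [← hA] at h9
        rcases hRR with ⟨rfl, rfl⟩ | ⟨rfl, rfl⟩
        · exact hAR h9.1
        · exact hAR h9.2
      have h8 : wspan cs C < wspan cs C' :=
        lt_of_le_of_ne (wspan_anti hsub) (fun h => h7 (h ▸ h6))
      have h9 := Submodule.finrank_lt_finrank_of_lt h8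
      unfold F
      omega
    · have h5 : crossing cs C' ⊂ crossing cs C := by
        refine ⟨crossing_mono hsub, fun h6 => ?_⟩
        have h7 : t ∈ crossing cs C := by
          have h8 : ¬ C ⊆ R := fun h => hAR (h hAC)
          rcases hRR with ⟨rfl, rfl⟩ | ⟨rfl, rfl⟩
          · exact ⟨ht, h8, hcr⟩
          · exact ⟨ht, hcr, h8⟩
        have h8 := h6 h7
        rcases hRR with ⟨rfl, rfl⟩ | ⟨rfl, rfl⟩
        · exact h8.2.1 hCR
        · exact h8.2.2 hCR
      have h6 := Set.ncard_lt_ncard h5 (Set.toFinite _)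
      unfold F
      omega
  obtain ⟨t, ht, hRt⟩ := hR' R hRm
  rcases hRt with hRt | hRt
  · exact key t ht R (negHalf cs t) (Or.inl ⟨hRt, rfl⟩) hC'R hAR
  · exact key t ht R (posHalf cs t) (Or.inr ⟨hRt, rfl⟩) hC'R hAR

lemma F_le [Finite W] (C : Set (Set W)) :
    F cs C ≤ Fintype.card B + Nat.card {t : W // cs.IsReflection t} := by
  have h1 : (crossing cs C).ncard ≤ Nat.card {t : W // cs.IsReflection t} := by
    rw [← Nat.card_coe_set_eq]
    exact Nat.card_le_card_of_injective
      (fun t : crossing cs C => (⟨t.1, t.2.1⟩ : {t : W // cs.IsReflection t}))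
      (fun a b h => Subtype.ext (by simpa using h))
  unfold F
  omega

lemma F_pos [Finite W] {C : Set (Set W)} (hC : IsConvex cs C) (hne : C.Nonempty) : 1 ≤ F cs C := by
  obtain ⟨A, hA⟩ := hne
  obtain ⟨𝓡, _, rfl⟩ := hC
  obtain ⟨w, T, hT, rfl⟩ := hA.1
  obtain ⟨j, hj⟩ := (Set.ne_univ_iff_exists_notMem T).1 hT
  have h1 : Module.finrank ℝ (wspan cs {A | IsSimplex cs A ∧ ∀ R ∈ 𝓡, A ∈ R}) < Fintype.card B := by
    rw [← Module.finrank_fintype_fun_eq_card ℝ (η := B)]
    apply Submodule.finrank_lt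
    intro htop
    have h2 := wspan_coord (cs := cs) hT hA (x := geo cs w (ee j)) (by rw [htop]; trivial) j hj
    rw [geo_geo, inv_mul_cancel, map_one] at h2
    simp [ee] at h2
  unfold F
  omega

lemma upper [Finite W] [Nonempty B] :
    Order.krullDim (Y cs) ≤
      ((Fintype.card B - 1 + Nat.card {t : W // cs.IsReflection t} : ℕ) : WithBot ℕ∞) := by
  apply iSup_le
  intro p
  have hs : StrictMono (fun i => F cs (p i).1) := by
    intro i j hij
    exact F_lt (p j).2.1 (p i).2.1 (p.strictMono hij)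
  have h1 : (Finset.univ.image (fun i => F cs (p i).1)).card = p.length + 1 := by
    rw [Finset.card_image_of_injective _ hs.injective]; simp
  have h2 : Finset.univ.image (fun i => F cs (p i).1) ⊆
      Finset.Icc 1 (Fintype.card B + Nat.card {t : W // cs.IsReflection t}) := by
    intro x hx
    rw [Finset.mem_image] at hx
    obtain ⟨i, -, rfl⟩ := hx
    rw [Finset.mem_Icc]
    exact ⟨F_pos (p i).2.1 (p i).2.2, F_le _⟩
  have h3 := Finset.card_le_card h2
  rw [h1, Nat.card_Icc] at h3
  have h5 : 0 < Fintype.card B := Fintype.card_pos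
  have h4 : p.length ≤ Fintype.card B - 1 + Nat.card {t : W // cs.IsReflection t} := by
    omega
  exact_mod_cast h4

/-! ### Lower bound -/

lemma mem_rightInvSeq (ω₁ ω₂ : List B) (i : B) :
    (cs.wordProd ω₂)⁻¹ * cs.simple i * cs.wordProd ω₂ ∈ cs.rightInvSeq (ω₁ ++ i :: ω₂) := by
  induction ω₁ with
  | nil => simp [rightInvSeq]
  | cons a ω₁ ih =>
    rw [List.cons_append, rightInvSeq]
    exact List.mem_cons_of_mem _ ih

lemma card_refl_le {ω : List B} (h : ∀ w, cs.length w ≤ cs.length (cs.wordProd ω)) :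
    Nat.card {t : W // cs.IsReflection t} ≤ ω.length := by
  classical
  have h1 : ∀ t, cs.IsReflection t → t ∈ cs.rightInvSeq ω := by
    intro t ht
    have h2 : geo cs (cs.wordProd ω) (rt cs t) ≤ 0 := by
      rw [← length_gt_iff ht]
      exact lt_of_le_of_ne (h _) (length_ne ht _)
    obtain ⟨ω₁, i, ω₂, rfl, h3⟩ := word_split ω (rt_PR ht) h2
    rw [(wordProd_erase (ω₁ := ω₁) ht h3).1]
    exact mem_rightInvSeq ω₁ ω₂ i
  have h2 : Nat.card {t : W // cs.IsReflection t} ≤ Nat.card (cs.rightInvSeq ω).toFinset :=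
    Nat.card_le_card_of_injective
      (fun t => (⟨t.1, List.mem_toFinset.2 (h1 t.1 t.2)⟩ : (cs.rightInvSeq ω).toFinset))
      (fun a b h => Subtype.ext (by simpa using h))
  refine h2.trans ?_
  rw [Nat.card_eq_fintype_card, Fintype.card_coe]
  exact (List.toFinset_card_le _).trans (by simp)

/-- an abstract chain -/
lemma chain_bound (K : ℕ) (R : ℕ → Set (Set W)) (A : ℕ → Set W) (hR : ∀ k < K, IsRoot cs (R k))
    (hA : ∀ k ≤ K, IsSimplex cs (A k)) (h1 : ∀ k ≤ K, ∀ i < k, A k ∈ R i)
    (h2 : ∀ k < K, A k ∉ R k) : ((K : ℕ) : WithBot ℕ∞) ≤ Order.krullDim (Y cs) := by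
  let E : ℕ → Set (Set W) := fun k => {X | IsSimplex cs X ∧ ∀ S ∈ R '' {i | i < k}, X ∈ S}
  have hconv : ∀ k ≤ K, IsConvex cs (E k) := by
    intro k hk
    refine ⟨R '' {i | i < k}, ?_, rfl⟩
    rintro S ⟨i, hi, rfl⟩
    exact hR i (lt_of_lt_of_le hi hk)
  have hmem : ∀ k ≤ K, A k ∈ E k := by
    intro k hk
    refine ⟨hA k hk, ?_⟩
    rintro S ⟨i, hi, rfl⟩
    exact h1 k hk i hi
  have hlt : ∀ k < K, E (k + 1) ⊂ E k := by
    intro k hk
    refine ⟨?_, ?_⟩
    · rintro X ⟨hX, hX'⟩
      refine ⟨hX, ?_⟩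
      rintro S ⟨i, hi, rfl⟩
      exact hX' _ ⟨i, Nat.lt_succ_of_lt hi, rfl⟩
    · intro h
      exact h2 k hk ((h (hmem k hk.le)).2 _ ⟨k, Nat.lt_succ_self k, rfl⟩)
  let p : LTSeries (Y cs) :=
    { length := K
      toFun := fun i => ⟨E (K - i), hconv _ (Nat.sub_le _ _), A (K - i), hmem _ (Nat.sub_le _ _)⟩
      step := by
        intro i
        have hi := i.2
        have e : K - (i.castSucc : ℕ) = (K - (i.succ : ℕ)) + 1 := by
          simp only [Fin.val_succ, Fin.val_castSucc]; omega
        have h3 := hlt (K - (i.succ : ℕ)) (by simp only [Fin.val_succ]; omega)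
        show E (K - (i.castSucc : ℕ)) < E (K - (i.succ : ℕ))
        rw [e]
        exact h3 }
  exact Order.LTSeries.length_le_krullDim p

lemma mem_empty_coset (w x : W) : x ∈ coset cs w ∅ ↔ x = w := by
  rw [mem_coset, para, Set.image_empty, Subgroup.closure_empty, Subgroup.mem_bot,
    inv_mul_eq_one]
  exact eq_comm

lemma lower [Finite W] [Nonempty B] :
    ((Fintype.card B - 1 + Nat.card {t : W // cs.IsReflection t} : ℕ) : WithBot ℕ∞) ≤
      Order.krullDim (Y cs) := by
  obtain ⟨w₀, hw₀⟩ := Finite.exists_max cs.length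
  obtain ⟨ω, hred, rfl⟩ := cs.exists_isReduced w₀
  have hcard := card_refl_le (cs := cs) hw₀
  have hn : 0 < Fintype.card B := Fintype.card_pos
  set n := Fintype.card B with hndef
  let e : Fin n ≃ B := (Fintype.equivFin B).symm
  let b : ℕ → B := fun k => if h : k < n then e ⟨k, h⟩ else Classical.arbitrary B
  have hb : ∀ i j, i < n → j < n → b i = b j → i = j := by
    intro i j hi hj h
    simp only [b, dif_pos hi, dif_pos hj] at h
    simpa using e.injective h
  let T : ℕ → Set B := fun k => b '' {i | i < k}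
  have hT : ∀ k, k < n → b k ∉ T k := by
    rintro k hk ⟨i, hi, h⟩
    have hi' : i < k := hi
    have := hb i k (by omega) hk h
    omega
  have hTu : ∀ k, k < n → T k ≠ Set.univ := fun k hk h => hT k hk (by rw [h]; trivial)
  set w₀ := cs.wordProd ω with hw
  let tt : ℕ → W := fun k => w₀ * cs.simple (b k) * w₀⁻¹
  have htt : ∀ k, cs.IsReflection (tt k) := fun k => ⟨w₀, b k, rfl⟩
  let L := ω.length
  let R : ℕ → Set (Set W) := fun k =>
    if k < L then negHalf cs ((cs.leftInvSeq ω).getD k 1) else posHalf cs (tt (k - L))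
  let A : ℕ → Set W := fun k =>
    if k < L then coset cs (cs.wordProd (ω.take k)) ∅ else coset cs w₀ (T (k - L))
  have hlen : (cs.leftInvSeq ω).length = L := by simp [L]
  have hempty : (∅ : Set B) ≠ Set.univ := Set.empty_ne_univ
  have main := chain_bound (cs := cs) (n - 1 + L) R A ?_ ?_ ?_ ?_
  · refine le_trans ?_ main
    have : n - 1 + Nat.card {t : W // cs.IsReflection t} ≤ n - 1 + L := by
      have : L = ω.length := rfl
      omega
    exact_mod_cast this
  · intro k hk
    simp only [R]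
    split_ifs with h
    · refine ⟨_, ?_, Or.inr rfl⟩
      apply cs.isReflection_of_mem_leftInvSeq ω
      rw [List.getD_eq_getElem _ _ (by omega)]
      exact List.getElem_mem _
    · exact ⟨_, htt _, Or.inl rfl⟩
  · intro k hk
    simp only [A]
    split_ifs with h
    · exact ⟨_, _, hempty, rfl⟩
    · exact ⟨_, _, hTu _ (by omega), rfl⟩
  · intro k hk i hi
    simp only [A, R]
    by_cases h : k < L
    · rw [if_pos h, if_pos (by omega)]
      refine ⟨⟨_, _, hempty, rfl⟩, cs.wordProd (ω.take k), self_mem _ _, ?_⟩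
      apply (cs.isLeftInversion_of_mem_leftInvSeq (hred.take k) ?_).2
      rw [cs.leftInvSeq_take]
      rw [List.getD_eq_getElem _ _ (by omega)]
      rw [List.mem_take_iff_getElem]
      exact ⟨i, by omega, rfl⟩
    · rw [if_neg h]
      have hsim : IsSimplex cs (coset cs w₀ (T (k - L))) := ⟨_, _, hTu _ (by omega), rfl⟩
      by_cases h' : i < L
      · rw [if_pos h']
        refine ⟨hsim, w₀, self_mem _ _, ?_⟩
        apply (cs.isLeftInversion_of_mem_leftInvSeq hred ?_).2
        rw [List.getD_eq_getElem _ _ (by omega)]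
        exact List.getElem_mem _
      · rw [if_neg h']
        refine ⟨hsim, w₀ * cs.simple (b (i - L)), ?_, ?_⟩
        · rw [mem_coset]
          have : w₀⁻¹ * (w₀ * cs.simple (b (i - L))) = cs.simple (b (i - L)) := by group
          rw [this]
          apply Subgroup.subset_closure
          refine ⟨_, ⟨i - L, ?_, rfl⟩, rfl⟩
          show i - L < k - L
          omega
        · have h3 : tt (i - L) * (w₀ * cs.simple (b (i - L))) = w₀ := by
            simp only [tt]
            calc w₀ * cs.simple (b (i - L)) * w₀⁻¹ * (w₀ * cs.simple (b (i - L)))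
                = w₀ * (cs.simple (b (i - L)) * cs.simple (b (i - L))) := by group
              _ = w₀ := by rw [cs.simple_mul_simple_self, mul_one]
          rw [h3]
          exact lt_of_le_of_ne (hw₀ _) (cs.length_mul_simple_ne _ _)
  · intro k hk
    simp only [A, R]
    by_cases h : k < L
    · rw [if_pos h, if_pos h]
      rintro ⟨_, x, hx, hx'⟩
      rw [mem_empty_coset] at hx
      subst hx
      have h3 : (cs.leftInvSeq ω).getD k 1 * cs.wordProd (ω.take k) = cs.wordProd (ω.take (k + 1)) := by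
        rw [List.getD_eq_getElem _ _ (by omega), cs.getElem_leftInvSeq ω k h,
          List.take_succ_eq_append_getElem h, wordProd_append]
        simp [mul_assoc]
      rw [h3, (hred.take k).eq, (hred.take (k + 1)).eq] at hx'
      simp only [List.length_take] at hx'
      have : L = ω.length := rfl
      omega
    · rw [if_neg h, if_neg h]
      rintro ⟨_, x, hx, hx'⟩
      rw [left_length (htt _)] at hx'
      have hpara := inv_mem ((mem_coset _ _ _).1 hx)
      have h4 : geo cs w₀ (ee (b (k - L))) ≤ 0 := by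
        rw [geo_nonpos_iff]
        exact lt_of_le_of_ne (hw₀ _) (cs.length_mul_simple_ne _ _)
      have h5 : rt cs (tt (k - L)) = - geo cs w₀ (ee (b (k - L))) := by
        rw [← rt_simple (cs := cs)] at h4 ⊢
        exact rt_conj_neg (cs.isReflection_simple _) w₀ h4
      have h6 : x⁻¹ = (w₀⁻¹ * x)⁻¹ * w₀⁻¹ := by group
      have h7 := hx' (b (k - L))
      rw [h5, map_neg, h6, geo_geo, mul_assoc, inv_mul_cancel, mul_one] at h7
      rw [Pi.neg_apply, geo_coord hpara _ _ (hT _ (by omega)), ee_coord] at h7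
      simp only [Pi.zero_apply] at h7
      linarith

/-- For every finite Coxeter system `(W, S)` with `S` nonempty: the dimension of the poset of
nonempty convex subcomplexes of its Coxeter complex is `|S| - 1 + N`, where `N` is the number of
reflections of `W`. -/
theorem result {B : Type u} {M : CoxeterMatrix B} [Fintype B] [Nonempty B] {W : Type v} [Group W]
    [Finite W] (cs : CoxeterSystem M W) :
    Order.krullDim (Y cs) =
      ((Fintype.card B - 1 + Nat.card {t : W // cs.IsReflection t} : ℕ) : WithBot ℕ∞) := by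
  classical
  exact le_antisymm upper lower

end Pool.Agent.Results.MP_70010f_co.ConvexDim
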